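import Pool.Agent.W345.VO.Stm

/-!
Project VO: the weight decomposition of the model.
-/

namespace Pool.Agent.W696.VO.WT

open MvPolynomial Pool.Agent.W345.VO

section gen

variable {I V : Type} [AddCommGroup V] [Module ℂ V] (b : Module.Basis I ℂ V)
  (T : Module.End ℂ V) (w : I → ℤ) (hT : ∀ i, T (b i) = (w i : ℂ) • b i)

include hT

theorem repr_eq (v : V) (i : I) : b.repr (T v) i = (w i : ℂ) * b.repr v i := by
  have h : (b.coord i).comp T = (w i : ℂ) • b.coord i := by
    apply b.ext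
    intro j
    rw [LinearMap.comp_apply, hT, LinearMap.smul_apply, map_smul, b.coord_apply]
    by_cases hij : j = i
    · rw [hij]
    · rw [b.repr_self, Finsupp.single_eq_of_ne (Ne.symm hij)]
      simp
  have := LinearMap.congr_fun h v
  simpa using this

theorem ker_eq (n : ℤ) : LinearMap.ker (T - (n : ℂ) • (LinearMap.id : V →ₗ[ℂ] V)) =
    Submodule.span ℂ (b '' {i | w i = n}) := by
  apply le_antisymm
  · intro v hv
    rw [b.mem_span_image]
    intro i hi
    have h1 : T v = (n : ℂ) • v := by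
      have : T v - (n : ℂ) • v = 0 := by simpa using hv
      exact sub_eq_zero.1 this
    have h2 := repr_eq b T w hT v i
    rw [h1, map_smul, Finsupp.smul_apply, smul_eq_mul] at h2
    have h3 : b.repr v i ≠ 0 := by
      simpa using hi
    have h4 := mul_right_cancel₀ h3 h2
    show w i = n
    exact_mod_cast h4.symm
  · rw [Submodule.span_le]
    rintro _ ⟨i, hi, rfl⟩
    have hi' : w i = n := hi
    show b i ∈ LinearMap.ker (T - (n : ℂ) • (LinearMap.id : V →ₗ[ℂ] V))
    rw [LinearMap.mem_ker, LinearMap.sub_apply, hT, hi']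
    simp

theorem internal : DirectSum.IsInternal
    (fun n : ℤ => LinearMap.ker (T - (n : ℂ) • (LinearMap.id : V →ₗ[ℂ] V))) := by
  rw [DirectSum.isInternal_submodule_iff_iSupIndep_and_iSup_eq_top]
  constructor
  · have h1 := (Module.End.eigenspaces_iSupIndep T).comp (f := fun n : ℤ => (n : ℂ))
      Int.cast_injective
    have h2 : (T.eigenspace ∘ fun n : ℤ => (n : ℂ)) =
        fun n : ℤ => LinearMap.ker (T - (n : ℂ) • (LinearMap.id : V →ₗ[ℂ] V)) := by
      funext n
      rw [Function.comp_apply, Module.End.eigenspace_def]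
      rfl
    rw [h2] at h1
    exact h1
  · rw [eq_top_iff, ← b.span_eq, Submodule.span_le]
    rintro _ ⟨i, rfl⟩
    have h1 : b i ∈ LinearMap.ker (T - (w i : ℂ) • (LinearMap.id : V →ₗ[ℂ] V)) := by
      rw [LinearMap.mem_ker, LinearMap.sub_apply, hT]
      simp
    exact Submodule.mem_iSup_of_mem (w i) h1

end gen

/-- the basis `single k (monomial s 1)` -/
noncomputable def bas : Module.Basis (Σ _ : ℤ, (ℕ →₀ ℕ)) ℂ VV :=
  Finsupp.basis (fun _ : ℤ => basisMonomials ℕ ℂ)

theorem bas_apply (k : ℤ) (s : ℕ →₀ ℕ) : bas ⟨k, s⟩ = Finsupp.single k (monomial s 1) := by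
  unfold bas
  rw [Finsupp.coe_basis]
  simp

/-- the weight of a monomial -/
def wS (s : ℕ →₀ ℕ) : ℕ := s.sum fun i k => k * (i + 1)

theorem wS_ge (s : ℕ →₀ ℕ) (i : ℕ) : s i * (i + 1) ≤ wS s := by
  unfold wS Finsupp.sum
  by_cases hi : i ∈ s.support
  · exact Finset.single_le_sum (f := fun i => s i * (i + 1)) (fun _ _ => Nat.zero_le _) hi
  · rw [Finsupp.notMem_support_iff.1 hi, zero_mul]
    exact Nat.zero_le _

theorem NN_monomial (s : ℕ →₀ ℕ) : NN (monomial s 1) = ((wS s : ℕ) : ℂ) • monomial s 1 := by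
  unfold NN
  rw [mkDerivation_monomial, one_smul]
  unfold wS Finsupp.sum
  rw [Nat.cast_sum, Finset.sum_smul]
  refine Finset.sum_congr rfl fun i hi => ?_
  have h0 : s i ≠ 0 := Finsupp.mem_support_iff.1 hi
  have h1 : s - Finsupp.single i 1 + Finsupp.single i 1 = s := by
    ext j
    by_cases hj : j = i
    · subst hj
      simp
      omega
    · simp [Finsupp.single_eq_of_ne hj]
  show monomial (s - Finsupp.single i 1) ((s i : ℕ) : ℂ) • (C ((i : ℂ) + 1) * X i) =
    (((s i * (i + 1) : ℕ)) : ℂ) • (monomial s (1 : ℂ))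
  rw [smul_eq_mul, X, C_mul_monomial, monomial_mul, h1, smul_monomial]
  congr 1
  push_cast
  simp

/-- the weight of a basis vector -/
def wI (i : Σ _ : ℤ, (ℕ →₀ ℕ)) : ℤ := i.1 ^ 2 - i.1 + (wS i.2 : ℤ)

theorem WW_bas (i : Σ _ : ℤ, (ℕ →₀ ℕ)) : WW (bas i) = (wI i : ℂ) • bas i := by
  obtain ⟨k, s⟩ := i
  rw [bas_apply, WW_single, NN_monomial, ← add_smul, Finsupp.smul_single]
  congr 2
  unfold wI
  push_cast
  ring

theorem finS (N : ℕ) : {s : ℕ →₀ ℕ | wS s ≤ N}.Finite := by
  refine Set.Finite.subset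
    (Finset.finite_toSet (Finset.finsupp (Finset.range N) (fun _ => Finset.range (N + 1)))) ?_
  intro s hs
  have hs' : wS s ≤ N := hs
  rw [Finset.mem_coe, Finset.mem_finsupp_iff]
  constructor
  · intro i hi
    have h0 : s i ≠ 0 := Finsupp.mem_support_iff.1 hi
    have h1 := wS_ge s i
    rw [Finset.mem_range]
    have h2 : 1 * (i + 1) ≤ s i * (i + 1) := Nat.mul_le_mul_right _ (Nat.pos_of_ne_zero h0)
    omega
  · intro i _
    have h1 := wS_ge s i
    rw [Finset.mem_range]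
    have h2 : s i * 1 ≤ s i * (i + 1) := Nat.mul_le_mul_left _ (by omega)
    omega

theorem sq_sub (k : ℤ) : 0 ≤ k ^ 2 - k := by
  rcases le_or_gt k 0 with h | h
  · nlinarith
  · nlinarith

theorem finI (n : ℤ) : {i : Σ _ : ℤ, (ℕ →₀ ℕ) | wI i = n}.Finite := by
  have h1 : ((Set.Icc (-n - 1) (n + 1)) ×ˢ {s : ℕ →₀ ℕ | wS s ≤ n.toNat}).Finite :=
    (Set.finite_Icc _ _).prod (finS _)
  refine (h1.image (fun p => (⟨p.1, p.2⟩ : Σ _ : ℤ, (ℕ →₀ ℕ)))).subset ?_
  rintro ⟨k, s⟩ hi
  have hi' : k ^ 2 - k + (wS s : ℤ) = n := hi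
  have h2 := sq_sub k
  have h3 : (0 : ℤ) ≤ (wS s : ℤ) := Int.natCast_nonneg _
  refine ⟨(k, s), ⟨⟨?_, ?_⟩, ?_⟩, rfl⟩
  · show -n - 1 ≤ k
    nlinarith
  · show k ≤ n + 1
    nlinarith
  · show wS s ≤ n.toNat
    omega

theorem wt : S_WT := by
  refine ⟨internal bas WW wI WW_bas, fun n => ?_, fun n hn => ?_⟩
  · rw [ker_eq bas WW wI WW_bas n]
    exact FiniteDimensional.span_of_finite ℂ ((finI n).image _)
  · rw [ker_eq bas WW wI WW_bas n]
    have : {i | wI i = n} = ∅ := by
      ext i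
      simp only [Set.mem_ofPred_eq, Set.mem_empty_iff_false, iff_false]
      intro h
      unfold wI at h
      have h2 := sq_sub i.1
      have h3 : (0 : ℤ) ≤ (wS i.2 : ℤ) := Int.natCast_nonneg _
      omega
    rw [this, Set.image_empty, Submodule.span_empty]

end Pool.Agent.W696.VO.WT
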